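import Pool.Agent.Helper62.OP.Defs
import Pool.Agent.Helper93.NR.Point

/-!
# OP: the statistic of a family: measurability, crude bound (O4c, O4d)
-/

set_option autoImplicit false
open MeasureTheory Set Filter Topology
open Pool.Agent.Helper57.Zeta Pool.Agent.Helper57.LH Pool.Agent.Helper57.ED
open Pool.Agent.Helper93.UG (zc sp)
open Pool.Agent.Helper56.UG (zc_mono)
open Pool.Agent.Helper57.NS (cnt)
open Pool.Agent.Helper62.OP

namespace Pool.Agent.Helper89.OP

/-- the number of the zeros in `t + [a, b] s` -/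
lemma cnt_eq {T : ℝ} (hs : 0 < sp T) (t a b : ℝ) :
    cnt T t (Icc a b) = (zc (Icc (t + a * sp T) (t + b * sp T)) : ℝ) := by
  unfold cnt
  congr 2
  ext u
  simp only [Set.mem_ofPred_eq, mem_Icc]
  rw [le_div_iff₀ hs, div_le_iff₀ hs]
  constructor <;> rintro ⟨h1, h2⟩ <;> constructor <;> linarith

lemma zc_tsum (α β t : ℝ) : ENNReal.ofReal (zc (Icc (t + α) (t + β)) : ℝ) =
    ∑' ρ : ZS, ({u : ℝ | u + α ≤ (ρ : ℂ).im ∧ (ρ : ℂ).im ≤ u + β}).indicator (fun _ => ENNReal.ofReal (mx ρ)) t := by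
  obtain ⟨F, hF, h1⟩ := Pool.Agent.Helper24.UG.zc_fin (I := Icc (t + α) (t + β)) subset_rfl
  rw [h1, ENNReal.ofReal_sum_of_nonneg (fun ρ _ => mx_nonneg _), tsum_eq_sum (s := F)]
  · refine Finset.sum_congr rfl fun ρ hρ => ?_
    have h2 : t ∈ {u : ℝ | u + α ≤ (ρ : ℂ).im ∧ (ρ : ℂ).im ≤ u + β} := (hF ρ).1 hρ
    rw [indicator_of_mem h2]
  · intro ρ hρ
    have h2 : t ∉ {u : ℝ | u + α ≤ (ρ : ℂ).im ∧ (ρ : ℂ).im ≤ u + β} := fun h3 => hρ ((hF ρ).2 h3)
    rw [indicator_of_notMem h2]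

lemma zc_meas (α β : ℝ) : Measurable (fun t => (zc (Icc (t + α) (t + β)) : ℝ)) := by
  have h0 : Measurable (fun t => ENNReal.ofReal (zc (Icc (t + α) (t + β)) : ℝ)) := by
    simp_rw [zc_tsum]
    refine Measurable.tsum fun ρ => measurable_const.indicator ?_
    have h1 : MeasurableSet {u : ℝ | u + α ≤ (ρ : ℂ).im} := measurableSet_le (measurable_id.add_const α) measurable_const
    have h2 : MeasurableSet {u : ℝ | (ρ : ℂ).im ≤ u + β} := measurableSet_le measurable_const (measurable_id.add_const β)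
    exact h1.inter h2
  have h2 : (fun t => (ENNReal.ofReal (zc (Icc (t + α) (t + β)) : ℝ)).toReal) =
      fun t => (zc (Icc (t + α) (t + β)) : ℝ) := by
    funext t
    exact ENNReal.toReal_ofReal (Nat.cast_nonneg _)
  have h1 := h0.ennreal_toReal
  rwa [h2] at h1

lemma sp_pos {T : ℝ} (hT : 1 < T) : 0 < sp T := by
  have := Real.log_pos hT
  have := Real.pi_pos
  unfold sp
  positivity

lemma cnt_meas {T : ℝ} (hs : 0 < sp T) (a b : ℝ) : Measurable fun t => cnt T t (Icc a b) := by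
  have h : (fun t => cnt T t (Icc a b)) = fun t => (zc (Icc (t + a * sp T) (t + b * sp T)) : ℝ) := by
    funext t
    exact cnt_eq hs t a b
  rw [h]
  exact zc_meas _ _

/-- O4d: measurability -/
theorem st_meas {R L : ℝ} (F : Fam R L) {T : ℝ} (hT : 1 < T) : Measurable (St F T) := by
  have hs := sp_pos hT
  have h : St F T = fun t => cnt T t (Icc (-R) R) + ∑ i, F.c i * cnt T t (Icc (F.a i) (F.b i)) := rfl
  rw [h]
  exact (cnt_meas hs _ _).add (Finset.measurable_sum _ fun i _ => (cnt_meas hs _ _).const_mul _)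

/-- the statistic against the number of the zeros in the long window -/
lemma st_abs {R L T : ℝ} (hR : 0 < R) (hRL : R ≤ L) (hs : 0 < sp T) (F : Fam R L) (t : ℝ) :
    |St F T t| ≤ F.B * (zc (Icc (t - L * sp T) (t + L * sp T)) : ℝ) := by
  have hle : ∀ a b : ℝ, -L ≤ a → b ≤ L → |cnt T t (Icc a b)| ≤ (zc (Icc (t - L * sp T) (t + L * sp T)) : ℝ) := by
    intro a b ha hb
    rw [cnt_eq hs, abs_of_nonneg (Nat.cast_nonneg _)]
    have h1 : -(L * sp T) ≤ a * sp T := by
      have := mul_le_mul_of_nonneg_right ha hs.le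
      linarith
    have h2 : b * sp T ≤ L * sp T := mul_le_mul_of_nonneg_right hb hs.le
    have : zc (Icc (t + a * sp T) (t + b * sp T)) ≤ zc (Icc (t - L * sp T) (t + L * sp T)) := by
      refine zc_mono (fun x hx => ?_) subset_rfl
      exact ⟨by linarith [hx.1], by linarith [hx.2]⟩
    exact_mod_cast this
  unfold St Fam.B
  refine (abs_add_le _ _).trans ?_
  rw [add_mul, one_mul, Finset.sum_mul]
  refine add_le_add (hle _ _ (by linarith) hRL) ?_
  refine (Finset.abs_sum_le_sum_abs _ _).trans (Finset.sum_le_sum fun i _ => ?_)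
  rw [abs_mul]
  refine mul_le_mul_of_nonneg_left (hle _ _ ?_ ?_) (abs_nonneg _)
  · rcases F.out i with h | h
    · exact h.1
    · linarith [h.1]
  · rcases F.out i with h | h
    · linarith [h.2]
    · exact h.2

/-- O4c: crude bound -/
theorem st_crude : ∃ C T₀ : ℝ, 1 ≤ C ∧ ∀ T R L : ℝ, T₀ ≤ T → 0 < R → R ≤ L → L ≤ Real.log T → ∀ (F : Fam R L) (u : ℝ),
    |St F T u| ≤ C * F.B * Real.log (|u| + T) := by
  obtain ⟨C, hC, H⟩ := Pool.Agent.Helper93.NR.zc_long
  refine ⟨max 1 (15 * C), 25, le_max_left _ _, fun T R L hT hR hRL hL F u => ?_⟩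
  have hT1 : 1 < T := by linarith
  have hl : 0 < Real.log T := Real.log_pos hT1
  have hs := sp_pos hT1
  have hLs : L * sp T ≤ 7 := by
    have h1 : L * sp T ≤ Real.log T * sp T := mul_le_mul_of_nonneg_right hL hs.le
    have h2 : Real.log T * sp T = 2 * Real.pi := by
      unfold sp
      field_simp
    have h3 := Real.pi_lt_d2
    linarith
  have h1 := st_abs hR hRL hs F u
  have h2 := H 14 (u - 7)
  have h3 : zc (Icc (u - L * sp T) (u + L * sp T)) ≤ zc (Icc (u - 7) (u - 7 + (14 : ℕ))) := by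
    refine zc_mono (fun x hx => ⟨by linarith [hx.1], ?_⟩) subset_rfl
    push_cast
    linarith [hx.2]
  have h3' : (zc (Icc (u - L * sp T) (u + L * sp T)) : ℝ) ≤ (zc (Icc (u - 7) (u - 7 + (14 : ℕ))) : ℝ) := Nat.cast_le.2 h3
  have h4 : Real.log (4 + |u - 7| + (14 : ℕ)) ≤ Real.log (|u| + T) := by
    refine Real.log_le_log (by positivity) ?_
    have h5 : |u - 7| ≤ |u| + |(7:ℝ)| := abs_sub u 7
    rw [abs_of_pos (show (0:ℝ) < 7 by norm_num)] at h5
    push_cast
    linarith
  have hB : 0 ≤ F.B := by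
    unfold Fam.B
    have : 0 ≤ ∑ i, |F.c i| := Finset.sum_nonneg fun _ _ => abs_nonneg _
    linarith
  have hlog : 0 ≤ Real.log (|u| + T) := Real.log_nonneg (by linarith [abs_nonneg u])
  have h6 : (zc (Icc (u - L * sp T) (u + L * sp T)) : ℝ) ≤ 15 * C * Real.log (|u| + T) := by
    refine h3'.trans (h2.trans ?_)
    have h7 := mul_le_mul_of_nonneg_left h4 hC.le
    push_cast at h7 ⊢
    nlinarith
  calc |St F T u| ≤ F.B * (zc (Icc (u - L * sp T) (u + L * sp T)) : ℝ) := h1
    _ ≤ F.B * (max 1 (15 * C) * Real.log (|u| + T)) := by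
        refine mul_le_mul_of_nonneg_left (h6.trans ?_) hB
        exact mul_le_mul_of_nonneg_right (le_max_right _ _) hlog
    _ = max 1 (15 * C) * F.B * Real.log (|u| + T) := by ring

end Pool.Agent.Helper89.OP
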