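import Pool.Agent.Helper89.OP.St
import Pool.Agent.Helper93.NR.Mom
import Pool.Agent.Helper93.NR.Transfer
import Pool.Agent.Helper10.RZ.Transfer
import Pool.Agent.Helper57.TX.Final

/-!
# OP: the second moment of the statistic of a family (O4b)
-/

set_option autoImplicit false
open MeasureTheory Set Filter Topology
open Pool.Agent.Helper93.UG (zc sp)
open Pool.Agent.Helper56.UG (zc_mono)
open Pool.Agent.Helper93.NR (zc_biUnion_le shift_le)
open Pool.Agent.Helper62.OP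

namespace Pool.Agent.Helper89.OP

/-- the long window against short windows -/
lemma win_le {s L : ℝ} (hs : 0 < s) (hL : 0 ≤ L) (N : ℕ) (hN : L ≤ N) (t : ℝ) :
    (zc (Icc (t - L * s) (t + L * s)) : ℝ) ≤
      ∑ j ∈ Finset.range (2 * N + 1), (zc (Ico (t + ((j : ℝ) - N) * s) (t + ((j : ℝ) - N) * s + 2 * s)) : ℝ) := by
  have hLs : 0 ≤ L * s := by positivity
  set W := Icc (t - L * s) (t + L * s) with hW
  have h1 : W ⊆ ⋃ j ∈ Finset.range (2 * N + 1), (Ico (t + ((j : ℝ) - N) * s) (t + ((j : ℝ) - N) * s + 2 * s) ∩ W) := by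
    intro x hx
    have e1 : -L ≤ (x - t) / s := by
      rw [le_div_iff₀ hs]
      linarith [hx.1]
    have e2 : (x - t) / s ≤ L := by
      rw [div_le_iff₀ hs]
      linarith [hx.2]
    have e0 : 0 ≤ (x - t) / s + N := by linarith
    have f1 := Nat.floor_le e0
    have f2 := Nat.lt_floor_add_one ((x - t) / s + N)
    set j := ⌊(x - t) / s + N⌋₊ with hj
    have hjN : j < 2 * N + 1 := by
      have : (j : ℝ) < 2 * N + 1 := by linarith
      exact_mod_cast this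
    simp only [mem_iUnion]
    refine ⟨j, Finset.mem_range.2 hjN, ⟨?_, ?_⟩, hx⟩
    · have : ((j : ℝ) - N) * s ≤ (x - t) / s * s := mul_le_mul_of_nonneg_right (by linarith) hs.le
      rw [div_mul_cancel₀ _ hs.ne'] at this
      linarith
    · have : (x - t) / s * s < ((j : ℝ) - N + 1) * s := mul_lt_mul_of_pos_right (by linarith) hs
      rw [div_mul_cancel₀ _ hs.ne'] at this
      linarith
  have h2 : zc W ≤ ∑ j ∈ Finset.range (2 * N + 1),
      zc (Ico (t + ((j : ℝ) - N) * s) (t + ((j : ℝ) - N) * s + 2 * s) ∩ W) := by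
    refine le_trans (zc_mono h1 (b := t + L * s) (a := t - L * s) ?_)
      (zc_biUnion_le (fun j : ℕ => Ico (t + ((j : ℝ) - N) * s) (t + ((j : ℝ) - N) * s + 2 * s) ∩ W)
        (a := t - L * s) (b := t + L * s) (fun k => inter_subset_right) _)
    exact iUnion₂_subset fun j _ => inter_subset_right
  have h3 : ∑ j ∈ Finset.range (2 * N + 1), zc (Ico (t + ((j : ℝ) - N) * s) (t + ((j : ℝ) - N) * s + 2 * s) ∩ W) ≤
      ∑ j ∈ Finset.range (2 * N + 1), zc (Ico (t + ((j : ℝ) - N) * s) (t + ((j : ℝ) - N) * s + 2 * s)) :=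
    Finset.sum_le_sum fun j _ => zc_mono inter_subset_left Ico_subset_Icc_self
  exact_mod_cast h2.trans h3

lemma fb_pos {R L : ℝ} (F : Fam R L) : 1 ≤ F.B := by
  unfold Fam.B
  have : 0 ≤ ∑ i, |F.c i| := Finset.sum_nonneg fun _ _ => abs_nonneg _
  linarith

/-- O4b: second moment -/
theorem st_sq {d : ℝ} (hd : 0 < d) (hd1 : d ≤ 1) : ∃ C T₀ : ℝ, 1 ≤ C ∧ ∀ T R L : ℝ, T₀ ≤ T → C ≤ L → Rng d T R L →
    ∀ F : Fam R L, IntegrableOn (fun t => St F T t ^ 2) (Icc T (2 * T)) ∧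
      ∫ t in Icc T (2 * T), St F T t ^ 2 ≤ C * F.B ^ 2 * L ^ 4 * T := by
  obtain ⟨D, T₁, hD, H⟩ := Pool.Agent.Helper10.RZ.sq_mom Pool.Agent.Helper57.TX.tx1
  refine ⟨25 * D, max T₁ 60, by linarith, fun T R L hT hL hr F => ?_⟩
  have hT1 : T₁ ≤ T := (le_max_left _ _).trans hT
  have hT60 : 60 ≤ T := (le_max_right _ _).trans hT
  obtain ⟨hi, hI⟩ := H T hT1
  have hL1 : 1 ≤ L := by linarith
  obtain ⟨hr1, hr2, hr3⟩ := hr
  have hR0 : 0 < R := lt_of_lt_of_le (Real.rpow_pos_of_pos (by linarith) _) hr2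
  have hRL : R ≤ L := by
    refine hr3.trans ?_
    calc L ^ (1 - d) ≤ L ^ (1 : ℝ) := Real.rpow_le_rpow_of_exponent_le hL1 (by linarith)
      _ = L := Real.rpow_one L
  have hlog1 : 1 ≤ Real.log T := by
    rw [Real.le_log_iff_exp_le (by linarith)]
    linarith [Real.exp_one_lt_d9]
  have hLl : L ≤ Real.log T := by
    refine hr1.trans ?_
    calc Real.log T ^ (1 - d) ≤ Real.log T ^ (1 : ℝ) := Real.rpow_le_rpow_of_exponent_le hlog1 (by linarith)
      _ = Real.log T := Real.rpow_one _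
  have hs := sp_pos (show 1 < T by linarith)
  have hss : Real.log T * sp T = 2 * Real.pi := by
    unfold sp
    have : Real.log T ≠ 0 := by linarith
    field_simp
  have hpi := Real.pi_lt_d2
  have hs7 : sp T ≤ 7 := by nlinarith
  have hLs : L * sp T ≤ 7 := by
    have h1 : L * sp T ≤ Real.log T * sp T := mul_le_mul_of_nonneg_right hLl hs.le
    linarith
  set s := sp T with hsd
  set N := ⌈L⌉₊ with hN
  have hN1 : L ≤ N := Nat.le_ceil L
  have hN2 : (N : ℝ) < L + 1 := Nat.ceil_lt_add_one (by linarith)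
  have hNs : (N : ℝ) * s ≤ 14 := by nlinarith
  set φ : ℝ → ℝ := fun t => (zc (Ico t (t + 2 * s)) : ℝ) ^ 2 with hφ
  have hφ0 : ∀ t, 0 ≤ φ t := fun t => by positivity
  have hsub : Icc T (2 * T) ⊆ Icc (T - sp T) (2 * T) := Icc_subset_Icc (by linarith) le_rfl
  have hj : ∀ j ∈ Finset.range (2 * N + 1), IntegrableOn (fun u => φ (u + ((j : ℝ) - N) * s)) (Icc T (2 * T)) ∧
      ∫ u in Icc T (2 * T), φ (u + ((j : ℝ) - N) * s) ≤ D * T := by
    intro j hj
    have hj' : (j : ℝ) ≤ 2 * N := by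
      have : j ≤ 2 * N := by
        have := Finset.mem_range.1 hj
        omega
      exact_mod_cast this
    have ha1 : -14 ≤ ((j : ℝ) - N) * s := by
      have h1 : 0 ≤ (j : ℝ) * s := by positivity
      nlinarith
    have ha2 : ((j : ℝ) - N) * s ≤ 14 := by
      have h1 : ((j : ℝ) - N) * s ≤ (N : ℝ) * s := mul_le_mul_of_nonneg_right (by linarith) hs.le
      linarith
    obtain ⟨g1, g2⟩ := shift_le (T := T) (a := ((j : ℝ) - N) * s) φ hφ0 hi (by linarith) (by linarith)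
    refine ⟨g1.mono_set hsub, le_trans ?_ (g2.trans hI)⟩
    exact setIntegral_mono_set g1 (ae_of_all _ fun u => hφ0 _) hsub.eventuallyLE
  have hB1 := fb_pos F
  -- pointwise
  have hpt : ∀ t, St F T t ^ 2 ≤ F.B ^ 2 * ((2 * N + 1 : ℕ) * ∑ j ∈ Finset.range (2 * N + 1), φ (t + ((j : ℝ) - N) * s)) := by
    intro t
    have h1 := st_abs hR0 hRL hs F t
    have h2 := win_le hs (by linarith : (0:ℝ) ≤ L) N hN1 t
    have h3 : (∑ j ∈ Finset.range (2 * N + 1), (zc (Ico (t + ((j : ℝ) - N) * s) (t + ((j : ℝ) - N) * s + 2 * s)) : ℝ)) ^ 2 ≤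
        ((Finset.range (2 * N + 1)).card : ℝ) * ∑ j ∈ Finset.range (2 * N + 1),
          (zc (Ico (t + ((j : ℝ) - N) * s) (t + ((j : ℝ) - N) * s + 2 * s)) : ℝ) ^ 2 := sq_sum_le_card_mul_sum_sq
    rw [Finset.card_range] at h3
    calc St F T t ^ 2 = |St F T t| ^ 2 := (sq_abs _).symm
      _ ≤ (F.B * (zc (Icc (t - L * s) (t + L * s)) : ℝ)) ^ 2 := pow_le_pow_left₀ (abs_nonneg _) h1 2
      _ = F.B ^ 2 * (zc (Icc (t - L * s) (t + L * s)) : ℝ) ^ 2 := by ring
      _ ≤ F.B ^ 2 * (∑ j ∈ Finset.range (2 * N + 1), (zc (Ico (t + ((j : ℝ) - N) * s) (t + ((j : ℝ) - N) * s + 2 * s)) : ℝ)) ^ 2 := by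
          refine mul_le_mul_of_nonneg_left ?_ (by positivity)
          exact pow_le_pow_left₀ (Nat.cast_nonneg _) h2 2
      _ ≤ _ := mul_le_mul_of_nonneg_left h3 (by positivity)
  have hgi : IntegrableOn (fun t => F.B ^ 2 * ((2 * N + 1 : ℕ) * ∑ j ∈ Finset.range (2 * N + 1), φ (t + ((j : ℝ) - N) * s)))
      (Icc T (2 * T)) := by
    refine Integrable.const_mul (Integrable.const_mul ?_ _) _
    exact integrable_finsetSum _ fun j hj' => (hj j hj').1
  have hmeas := st_meas F (show 1 < T by linarith)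
  have hint : IntegrableOn (fun t => St F T t ^ 2) (Icc T (2 * T)) := by
    refine hgi.mono' (hmeas.pow_const 2).aestronglyMeasurable (ae_of_all _ fun t => ?_)
    rw [Real.norm_eq_abs, abs_of_nonneg (by positivity)]
    exact hpt t
  refine ⟨hint, (setIntegral_mono hint hgi hpt).trans ?_⟩
  rw [integral_const_mul, integral_const_mul, integral_finsetSum _ fun j hj' => (hj j hj').1]
  have h5 : ∑ j ∈ Finset.range (2 * N + 1), ∫ t in Icc T (2 * T), φ (t + ((j : ℝ) - N) * s) ≤ ((2 * N + 1 : ℕ) : ℝ) * (D * T) := by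
    refine (Finset.sum_le_sum fun j hj' => (hj j hj').2).trans ?_
    rw [Finset.sum_const, Finset.card_range, nsmul_eq_mul]
  have h6 : ((2 * N + 1 : ℕ) : ℝ) ≤ 5 * L := by
    push_cast
    linarith
  have h60 : (0 : ℝ) ≤ ((2 * N + 1 : ℕ) : ℝ) := Nat.cast_nonneg _
  have hDT : 0 ≤ D * T := by positivity
  have h7 : ((2 * N + 1 : ℕ) : ℝ) * ∑ j ∈ Finset.range (2 * N + 1), ∫ t in Icc T (2 * T), φ (t + ((j : ℝ) - N) * s) ≤
      25 * D * L ^ 4 * T := by
    calc ((2 * N + 1 : ℕ) : ℝ) * ∑ j ∈ Finset.range (2 * N + 1), ∫ t in Icc T (2 * T), φ (t + ((j : ℝ) - N) * s)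
        ≤ ((2 * N + 1 : ℕ) : ℝ) * (((2 * N + 1 : ℕ) : ℝ) * (D * T)) := mul_le_mul_of_nonneg_left h5 h60
      _ = ((2 * N + 1 : ℕ) : ℝ) ^ 2 * (D * T) := by ring
      _ ≤ (5 * L) ^ 2 * (D * T) := mul_le_mul_of_nonneg_right (pow_le_pow_left₀ h60 h6 2) hDT
      _ = 25 * (L ^ 2 * 1) * (D * T) := by ring
      _ ≤ 25 * (L ^ 2 * L ^ 2) * (D * T) := by
          refine mul_le_mul_of_nonneg_right (mul_le_mul_of_nonneg_left ?_ (by norm_num)) hDT
          exact mul_le_mul_of_nonneg_left (one_le_pow₀ hL1) (by positivity)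
      _ = 25 * D * L ^ 4 * T := by ring
  calc F.B ^ 2 * (((2 * N + 1 : ℕ) : ℝ) * ∑ j ∈ Finset.range (2 * N + 1), ∫ t in Icc T (2 * T), φ (t + ((j : ℝ) - N) * s))
      ≤ F.B ^ 2 * (25 * D * L ^ 4 * T) := mul_le_mul_of_nonneg_left h7 (by positivity)
    _ = 25 * D * F.B ^ 2 * L ^ 4 * T := by ring

end Pool.Agent.Helper89.OP
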